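import Pool.Agent.Y920.AD.Stm

/-!
# Multiplicity of the one-dimensional labels (helper454, job AD-MULT1)

Adaptation of `Pool.Agent.H983R3.Core2` and `Core3` to dimension one.
-/

set_option autoImplicit false

namespace Pool.Agent.Y454.AD

open Pool.Agent.H983R3 Pool.Agent.Y920.AD

variable (P : Par)

theorem tri1 {ρ σ a b c : ℝ} (h1 : |b - a| < ρ) (h2 : |c - b| < σ) : |c - a| < ρ + σ := by
  have := abs_sub_le c b a
  linarith

theorem sym1 {ρ a b : ℝ} (h : |b - a| < ρ) : |a - b| < ρ := by
  rw [abs_sub_comm]; exact h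

theorem in_le {ρ p y : ℝ} (h : p - ρ ≤ y ∧ y < p + ρ) : |y - p| ≤ ρ := by
  rw [abs_le]; constructor <;> linarith [h.1, h.2]

theorem in_lt {ρ σ p y : ℝ} (hs : ρ < σ) (h : p - ρ ≤ y ∧ y < p + ρ) : |y - p| < σ :=
  (in_le h).trans_lt hs

theorem lt_in {ρ p y : ℝ} (h : |y - p| < ρ) : p - ρ ≤ y ∧ y < p + ρ := by
  rw [abs_lt] at h
  constructor <;> linarith [h.1, h.2]

theorem L1_bdd (p : ℝ) : BddBelow {k : ℤ | P.L1 k p} := by
  obtain ⟨m, hm⟩ := P.Lat_bdd (p, p)
  exact ⟨m, fun k hk => hm (show P.Lat k (p, p) from ⟨hk, hk⟩)⟩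

theorem kap1_mem {n : ℤ} {p : ℝ} (h : P.L1 n p) : P.L1 (kap1 P p) p :=
  Int.csInf_mem ⟨n, h⟩ (L1_bdd P p)

theorem kap1_le {n : ℤ} {p : ℝ} (h : P.L1 n p) : kap1 P p ≤ n :=
  csInf_le (L1_bdd P p) h

theorem kap1_not {n : ℤ} {p : ℝ} (h : n < kap1 P p) : ¬ P.L1 n p := fun h' => by
  have := kap1_le P h'; omega

theorem b1_in {n : ℤ} {p y : ℝ} (hp : P.L1 (n - 1) p)
    (hy : p - P.u n / 3 ≤ y ∧ y < p + P.u n / 3) :
    b1 P n y = (kap1 P p, P.cell (kap1 P p) y) := by
  have h : ∃ p, P.L1 (n - 1) p ∧ (p - P.u n / 3 ≤ y ∧ y < p + P.u n / 3) := ⟨p, hp, hy⟩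
  have hu := P.u_pos n
  have hu2 : P.u n ≤ P.u (n - 1) := P.u_anti (by omega)
  have e : h.choose = p := by
    apply P.L1_sep h.choose_spec.1 hp
    have h1 := sym1 (in_lt (show P.u n / 3 < P.u n / 2 by linarith) h.choose_spec.2)
    have h2 := in_lt (show P.u n / 3 < P.u n / 2 by linarith) hy
    have h3 := tri1 h2 h1
    linarith
  unfold b1
  rw [dif_pos h, e]

theorem b1_out {n : ℤ} {y : ℝ}
    (h : ¬ ∃ p, P.L1 (n - 1) p ∧ (p - P.u n / 3 ≤ y ∧ y < p + P.u n / 3)) :
    b1 P n y = (n, P.cell n y) := by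
  unfold b1
  rw [dif_neg h]

theorem ell1_in {n : ℤ} {q y : ℝ} (hq : P.L1 n q) (hy : |y - q| < P.u (n + 1) / 9) :
    ell1 P n y = b1 P (kap1 P q - 1) y := by
  have h : ∃ q, P.L1 n q ∧ |y - q| < P.u (n + 1) / 9 := ⟨q, hq, hy⟩
  have hu := P.u_pos (n + 1)
  have hu2 := P.u_le_ninth n
  have e : h.choose = q := by
    apply P.L1_sep h.choose_spec.1 hq
    have h3 := tri1 hy (sym1 h.choose_spec.2)
    linarith
  unfold ell1
  rw [dif_pos h, e]

theorem ell1_out {n : ℤ} {y : ℝ} (h : ¬ ∃ q, P.L1 n q ∧ |y - q| < P.u (n + 1) / 9) :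
    ell1 P n y = b1 P n y := by
  unfold ell1
  rw [dif_neg h]

theorem b1_near {n : ℤ} {q y : ℝ} (hq : P.L1 n q) (hy : |y - q| < P.u (n + 1)) :
    b1 P n y = (kap1 P q, P.cell (kap1 P q) y) := by
  have hu := P.u_pos (n + 1)
  have hu2 := P.u_le_ninth n
  rcases (kap1_le P hq).lt_or_eq with h | h
  · have hq' : P.L1 (n - 1) q := P.L1_mono (by omega) (kap1_mem P hq)
    exact b1_in P hq' (lt_in (by linarith))
  · rw [b1_out, h]
    rintro ⟨p, hp, hpy⟩
    have h1 : P.L1 n p := P.L1_mono (by omega) hp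
    have h2 : p = q := by
      apply P.L1_sep h1 hq
      have h3 := sym1 (in_lt (show P.u n / 3 < P.u n / 2 by linarith) hpy)
      have h4 := tri1 hy h3
      linarith
    subst h2
    exact kap1_not P (show n - 1 < kap1 P p by omega) hp

theorem b1_eq_of_pix {k : ℤ} {y y' : ℝ} (h0 : P.pix k y = P.pix k y') :
    b1 P (k - 1) y = b1 P (k - 1) y' := by
  have h1 : P.eb k y = P.eb k y' := by unfold Par.eb; rw [h0]
  have key : ∀ p, P.L1 (k - 1 - 1) p →
      ((p - P.u (k - 1) / 3 ≤ y ∧ y < p + P.u (k - 1) / 3) ↔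
        (p - P.u (k - 1) / 3 ≤ y' ∧ y' < p + P.u (k - 1) / 3)) := by
    intro p hp
    have hp' : P.L1 (k - 1) p := P.L1_mono (by omega) hp
    have a1 := P.sp_ring hp' (-1)
    have a2 := P.sp_ring hp' 1
    have e1 : p + ((-1 : ℤ) : ℝ) * (P.u (k - 1) / 3) = p - P.u (k - 1) / 3 := by
      push_cast; ring
    have e2 : p + ((1 : ℤ) : ℝ) * (P.u (k - 1) / 3) = p + P.u (k - 1) / 3 := by
      push_cast; ring
    rw [e1] at a1; rw [e2] at a2
    rw [P.sp_le_iff a1 h1, ← not_le, ← not_le, P.sp_le_iff a2 h1]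
  have hpix : ∀ j ≤ k, P.cell j y = P.cell j y' := by
    intro j hj
    unfold Par.cell
    rw [P.pix_eq_of_pix hj h0]
  by_cases h : ∃ p, P.L1 (k - 1 - 1) p ∧ (p - P.u (k - 1) / 3 ≤ y ∧ y < p + P.u (k - 1) / 3)
  · obtain ⟨p, hp, hpy⟩ := h
    rw [b1_in P hp hpy, b1_in P hp ((key p hp).mp hpy)]
    have : kap1 P p ≤ k := by
      have := kap1_le P hp; omega
    rw [hpix _ this]
  · have h' : ¬ ∃ p, P.L1 (k - 1 - 1) p ∧
        (p - P.u (k - 1) / 3 ≤ y' ∧ y' < p + P.u (k - 1) / 3) := by
      rintro ⟨p, hp, hpy⟩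
      exact h ⟨p, hp, (key p hp).mpr hpy⟩
    rw [b1_out P h, b1_out P h', hpix _ (by omega)]

theorem cell_pix {k : ℤ} {y y' : ℝ} (h : P.pix k y = P.pix k y') : P.cell k y = P.cell k y' := by
  unfold Par.cell; rw [h]

theorem multM1 {N k : ℤ} (hk : k ≤ N) {v : ℝ} (hv : P.L1 N v) (hvk : ¬ P.L1 k v) :
    ∃ s : Finset (ℤ × ℤ), s.card ≤ 2 ∧
      ∀ y, |y - v| < P.u N → b1 P (k - 1) y ∈ s ∧ (k, P.cell k y) ∈ s := by
  classical
  refine ⟨{b1 P (k - 1) v, (k, P.cell k v)}, Finset.card_le_two, ?_⟩
  intro y hy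
  have h := P.near_lt_not hk hv hy hvk
  rw [cell_pix P h, b1_eq_of_pix P h]
  simp

theorem multT1 {N k : ℤ} (hk : k ≤ N) {v : ℝ} (hv : P.L1 N v) (hvk' : ¬ P.L1 (k - 1) v) :
    ∃ s : Finset (ℤ × ℤ), s.card ≤ 2 ∧ ∀ y, |y - v| < P.u N → b1 P (k - 1) y ∈ s := by
  classical
  have huN := P.u_pos N
  have huk := P.u_anti hk
  have huk1 := P.u_lt_ninth (show k - 1 < k by omega)
  have hk1 := P.u_pos (k - 1)
  have hk2 := P.u_anti (show k - 1 - 1 ≤ k - 1 by omega)
  have hpx : ∀ y, |y - v| < P.u N → P.pix (k - 1) y = P.pix (k - 1) v := fun y hy =>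
    P.near_lt_not (show k - 1 ≤ N by omega) hv hy hvk'
  by_cases h : ∃ y0, |y0 - v| < P.u N ∧ ∃ p, P.L1 (k - 1 - 1) p ∧
      (p - P.u (k - 1) / 3 ≤ y0 ∧ y0 < p + P.u (k - 1) / 3)
  · obtain ⟨y0, hy0, p, hp, hpy0⟩ := h
    refine ⟨{(kap1 P p, P.cell (kap1 P p) v), (k - 1, P.cell (k - 1) v)},
      Finset.card_le_two, ?_⟩
    intro y hy
    by_cases hyp : ∃ p', P.L1 (k - 1 - 1) p' ∧
        (p' - P.u (k - 1) / 3 ≤ y ∧ y < p' + P.u (k - 1) / 3)
    · obtain ⟨p', hp', hpy'⟩ := hyp
      have e : p' = p := by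
        apply P.L1_sep hp' hp
        have h1 := in_lt (show P.u (k - 1) / 3 < P.u (k - 1) * (7 / 18) by linarith) hpy0
        have h2 := in_lt (show P.u (k - 1) / 3 < P.u (k - 1) * (7 / 18) by linarith) hpy'
        have h3 := tri1 (tri1 (tri1 h1 (sym1 hy0)) hy) (sym1 h2)
        linarith
      subst e
      rw [b1_in P hp' hpy']
      have hkk : kap1 P p' ≤ k - 1 := by have := kap1_le P hp'; omega
      rw [cell_pix P (P.pix_eq_of_pix hkk (hpx y hy))]
      simp
    · rw [b1_out P hyp, cell_pix P (hpx y hy)]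
      simp
  · refine ⟨{(k - 1, P.cell (k - 1) v)}, by simp, ?_⟩
    intro y hy
    have hyp : ¬ ∃ p', P.L1 (k - 1 - 1) p' ∧
        (p' - P.u (k - 1) / 3 ≤ y ∧ y < p' + P.u (k - 1) / 3) := fun hc => h ⟨y, hy, hc⟩
    rw [b1_out P hyp, cell_pix P (hpx y hy)]
    simp

theorem t_MULT1 : S_MULT1 := by
  classical
  intro P n v hv
  have u1 := P.u_pos (n + 1)
  have u2 := P.u_pos (n + 2)
  have u3 := P.u_pos (n + 3)
  have h01 := P.u_lt_ninth (show n < n + 1 by omega)
  have h12 := P.u_lt_ninth (show n + 1 < n + 2 by omega)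
  have h23 := P.u_lt_ninth (show n + 2 < n + 3 by omega)
  by_cases hq : ∃ q, P.L1 n q ∧ |v - q| ≤ P.u (n + 1) / 3
  · obtain ⟨q, hq, hd1⟩ := hq
    have hcvq : |v - q| < P.u (n + 1) / 2 := by linarith
    have hk : kap1 P q ≤ n := kap1_le P hq
    have hkl := kap1_mem P hq
    -- points near v have only q as close lattice point
    have huniq : ∀ m, m ≤ n + 1 → ∀ q', P.L1 m q' → ∀ y, |y - v| < P.u (n + 3) →
        |y - q'| < P.u (n + 1) / 3 → q' = q := by
      intro m hm q' hq' y hy hy'
      apply P.L1_sep (n := n + 1) (P.L1_mono hm hq') (P.L1_mono (by omega) hq)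
      have := tri1 (tri1 hcvq hy) (sym1 hy')
      linarith
    have hbn : ∀ y, |y - v| < P.u (n + 3) → b1 P n y = (kap1 P q, P.cell (kap1 P q) y) := by
      intro y hy
      apply b1_near P hq
      have := tri1 hcvq hy
      linarith
    by_cases hvq : v = q
    · subst hvq
      obtain ⟨s, hs, hs2⟩ := multT1 P (show kap1 P v ≤ n + 3 by omega) hv
        (kap1_not P (by omega))
      refine ⟨s, hs, ?_⟩
      intro y hy
      have e1 : ell1 P n y = b1 P (kap1 P v - 1) y := ell1_in P hq (by linarith)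
      have e2 : ell1 P (n + 1) y = b1 P (kap1 P v - 1) y := by
        apply ell1_in P (P.L1_mono (by omega) hq)
        rw [show n + 1 + 1 = n + 2 by ring]
        linarith
      rw [e1, e2]
      exact ⟨hs2 y hy, hs2 y hy⟩
    · have hvk : ¬ P.L1 (kap1 P q) v := by
        intro hc
        apply hvq
        apply P.L1_sep hc hkl
        have := P.u_anti hk
        linarith
      by_cases hin : |v - q| < P.u (n + 1) / 3
      · -- interior of the ring
        obtain ⟨s, hs, hs2⟩ := multM1 P (show kap1 P q ≤ n + 3 by omega) hv hvk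
        refine ⟨s, hs, ?_⟩
        intro y hy
        have g1 := P.ring_gap (N := n + 3) (by omega) hq hv hin
        have hcl : |y - q| < P.u (n + 1) / 3 := by
          have := abs_sub_le y v q
          linarith
        have e1 : ell1 P n y = b1 P (kap1 P q - 1) y ∨
            ell1 P n y = (kap1 P q, P.cell (kap1 P q) y) := by
          by_cases h : ∃ q', P.L1 n q' ∧ |y - q'| < P.u (n + 1) / 9
          · obtain ⟨q', hq', hy'⟩ := h
            have := huniq n (by omega) q' hq' y hy (by linarith)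
            subst this
            left; exact ell1_in P hq' hy'
          · right
            rw [ell1_out P h, hbn y hy]
        have e2 : ell1 P (n + 1) y = b1 P (kap1 P q - 1) y ∨
            ell1 P (n + 1) y = (kap1 P q, P.cell (kap1 P q) y) := by
          by_cases h : ∃ q', P.L1 (n + 1) q' ∧ |y - q'| < P.u (n + 1 + 1) / 9
          · obtain ⟨q', hq', hy'⟩ := h
            rw [show n + 1 + 1 = n + 2 by ring] at hy'
            have := huniq (n + 1) le_rfl q' hq' y hy (by linarith)
            subst this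
            left
            apply ell1_in P hq'
            rw [show n + 1 + 1 = n + 2 by ring]; exact hy'
          · right
            rw [ell1_out P h]
            apply b1_in P (p := q)
            · rw [show n + 1 - 1 = n by ring]; exact hq
            · exact lt_in hcl
        have hsy := hs2 y hy
        constructor
        · rcases e1 with e | e <;> rw [e]
          · exact hsy.1
          · exact hsy.2
        · rcases e2 with e | e <;> rw [e]
          · exact hsy.1
          · exact hsy.2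
      · -- boundary of the ring
        refine ⟨{(kap1 P q, P.cell (kap1 P q) v), (n + 1, P.cell (n + 1) q)},
          Finset.card_le_two, ?_⟩
        intro y hy
        have hfar : ¬ |y - q| < P.u (n + 1) / 9 := by
          intro hc
          apply hin
          have := abs_sub_le v y q
          have h3 : |v - y| < P.u (n + 3) := by rw [abs_sub_comm]; exact hy
          linarith
        have e1 : ell1 P n y = (kap1 P q, P.cell (kap1 P q) y) := by
          rw [ell1_out, hbn y hy]
          rintro ⟨q', hq', hy'⟩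
          have := huniq n (by omega) q' hq' y hy (by linarith)
          subst this
          exact hfar hy'
        have e2 : ell1 P (n + 1) y = b1 P (n + 1) y := by
          apply ell1_out
          rintro ⟨q', hq', hy'⟩
          rw [show n + 1 + 1 = n + 2 by ring] at hy'
          have := huniq (n + 1) le_rfl q' hq' y hy (by linarith)
          subst this
          exact hfar (by linarith)
        have hyq : |y - q| < P.u (n + 1) := by
          have := tri1 hcvq hy
          linarith
        have e3 : b1 P (n + 1) y = (kap1 P q, P.cell (kap1 P q) y) ∨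
            b1 P (n + 1) y = (n + 1, P.cell (n + 1) q) := by
          by_cases h : ∃ p, P.L1 (n + 1 - 1) p ∧
              (p - P.u (n + 1) / 3 ≤ y ∧ y < p + P.u (n + 1) / 3)
          · obtain ⟨p, hp, hpy⟩ := h
            left
            have hp' : P.L1 n p := by
              rw [show n + 1 - 1 = n by ring] at hp; exact hp
            have : p = q := by
              apply P.L1_sep (n := n + 1) (P.L1_mono (by omega) hp') (P.L1_mono (by omega) hq)
              have h4 := in_lt (show P.u (n+1) / 3 < P.u (n+1) * (7/18) by linarith) hpy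
              have h5 := tri1 (tri1 hcvq hy) (sym1 h4)
              linarith
            subst this
            exact b1_in P hp hpy
          · right
            rw [b1_out P h, P.cell_near_old hq hyq]
        have hQ : P.cell (kap1 P q) y = P.cell (kap1 P q) v :=
          cell_pix P (P.near_lt_not (show kap1 P q ≤ n + 3 by omega) hv hy hvk)
        constructor
        · rw [e1, hQ]; simp
        · rw [e2]
          rcases e3 with h | h
          · rw [h, hQ]; simp
          · rw [h]; simp
  · -- far from all level n lattice points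
    have hfar : ∀ q, P.L1 n q → ∀ y, |y - v| < P.u (n + 3) → ¬ |y - q| < P.u (n + 1) / 9 := by
      intro q hq' y hy hc
      apply hq
      refine ⟨q, hq', ?_⟩
      have := abs_sub_le v y q
      have h3 : |v - y| < P.u (n + 3) := by rw [abs_sub_comm]; exact hy
      linarith
    have hbox : ∀ y, |y - v| < P.u (n + 3) →
        ¬ ∃ p, P.L1 (n + 1 - 1) p ∧ (p - P.u (n + 1) / 3 ≤ y ∧ y < p + P.u (n + 1) / 3) := by
      rintro y hy ⟨p, hp, hpy⟩
      rw [show n + 1 - 1 = n by ring] at hp
      apply hq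
      have hle := in_le hpy
      refine ⟨p, hp, ?_⟩
      apply P.ring_gap' (N := n + 3) (by omega) hp hv
      have := abs_sub_le v y p
      have h3 : |v - y| < P.u (n + 3) := by rw [abs_sub_comm]; exact hy
      linarith
    have e1 : ∀ y, |y - v| < P.u (n + 3) → ell1 P n y = b1 P n y := by
      intro y hy
      apply ell1_out
      rintro ⟨q, hq', hc⟩
      exact hfar q hq' y hy hc
    by_cases hv1 : P.L1 (n + 1) v
    · have hvn : ¬ P.L1 n v := by
        intro hc
        apply hq
        refine ⟨v, hc, ?_⟩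
        simp; linarith
      have hk : kap1 P v = n + 1 := by
        apply le_antisymm (kap1_le P hv1)
        by_contra hcon
        push Not at hcon
        exact hvn (P.L1_mono (by omega) (kap1_mem P hv1))
      obtain ⟨s, hs, hs2⟩ := multT1 P (show n + 1 ≤ n + 3 by omega) hv
        (by rw [show n + 1 - 1 = n by ring]; exact hvn)
      rw [show n + 1 - 1 = n by ring] at hs2
      refine ⟨s, hs, ?_⟩
      intro y hy
      have e2 : ell1 P (n + 1) y = b1 P n y := by
        rw [ell1_in P hv1, hk, show n + 1 - 1 = n by ring]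
        rw [show n + 1 + 1 = n + 2 by ring]
        linarith
      rw [e1 y hy, e2]
      exact ⟨hs2 y hy, hs2 y hy⟩
    · obtain ⟨s, hs, hs2⟩ := multM1 P (show n + 1 ≤ n + 3 by omega) hv hv1
      rw [show n + 1 - 1 = n by ring] at hs2
      refine ⟨s, hs, ?_⟩
      intro y hy
      have e2 : ell1 P (n + 1) y = b1 P n y ∨ ell1 P (n + 1) y = (n + 1, P.cell (n + 1) y) := by
        by_cases h : ∃ q', P.L1 (n + 1) q' ∧ |y - q'| < P.u (n + 1 + 1) / 9
        · obtain ⟨q', hq', hy'⟩ := h
          left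
          rw [ell1_in P hq' hy']
          rw [show n + 1 + 1 = n + 2 by ring] at hy'
          have hn' : ¬ P.L1 n q' := by
            intro hc
            exact hfar q' hc y hy (by linarith)
          have hk : kap1 P q' = n + 1 := by
            apply le_antisymm (kap1_le P hq')
            by_contra hcon
            push Not at hcon
            exact hn' (P.L1_mono (by omega) (kap1_mem P hq'))
          rw [hk, show n + 1 - 1 = n by ring]
        · right
          rw [ell1_out P h, b1_out P (hbox y hy)]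
      have hsy := hs2 y hy
      rw [e1 y hy]
      refine ⟨hsy.1, ?_⟩
      rcases e2 with e | e <;> rw [e]
      · exact hsy.1
      · exact hsy.2

end Pool.Agent.Y454.AD
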